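import Pool.Agent.W4.QD.Stms

set_option autoImplicit false

namespace Pool.Agent.W143.QD

open NumberField Finset Polynomial Pool.Agent.W4.QD

/-- clearing denominators of a rational polynomial -/
theorem clear (f : ℚ[X]) : ∃ (b : ℤ) (g : ℤ[X]), b ≠ 0 ∧ g.natDegree ≤ f.natDegree ∧
    g.map (Int.castRingHom ℚ) = C (b : ℚ) * f := by
  obtain ⟨b, hb0, hb⟩ := IsLocalization.integerNormalization_spec (nonZeroDivisors ℤ) f
  refine ⟨b, IsLocalization.integerNormalization (nonZeroDivisors ℤ) f,
    nonZeroDivisors.ne_zero hb0, ?_, ?_⟩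
  · have h1 : (Polynomial.map (algebraMap ℤ ℚ)
        (IsLocalization.integerNormalization (nonZeroDivisors ℤ) f)).natDegree =
        (IsLocalization.integerNormalization (nonZeroDivisors ℤ) f).natDegree :=
      natDegree_map_eq_of_injective (algebraMap ℤ ℚ).injective_int _
    rw [← h1, hb]
    exact natDegree_smul_le _ _
  · have h2 : (Int.castRingHom ℚ) = algebraMap ℤ ℚ := rfl
    rw [h2, hb]
    ext n
    rw [coeff_C_mul]
    simp

/-- every element is a polynomial in `θ` of degree `< d` -/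
theorem expand {K : Type} [Field K] [NumberField K] (θ : 𝓞 K) (h : Gen θ) (x : K) :
    ∃ f : ℚ[X], f.natDegree < Module.finrank ℚ K ∧ x = aeval (θ : K) f := by
  have hd : 0 < Module.finrank ℚ K := Module.finrank_pos
  have hi : IsIntegral ℚ (θ : K) := Algebra.IsIntegral.isIntegral _
  have hx : x ∈ Algebra.adjoin ℚ {(θ : K)} := by rw [h]; trivial
  rw [Algebra.adjoin_singleton_eq_range_aeval] at hx
  obtain ⟨f, hf⟩ := hx
  refine ⟨f %ₘ minpoly ℚ (θ : K), ?_, ?_⟩
  · by_cases h1 : minpoly ℚ (θ : K) = 1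
    · exact absurd h1 (minpoly.ne_one _ _)
    · exact (natDegree_modByMonic_lt f (minpoly.monic hi) h1).trans_le (minpoly.natDegree_le _)
  · rw [← hf]
    have h2 := modByMonic_add_div f (minpoly ℚ (θ : K))
    conv_lhs => rw [← h2]
    simp

theorem t_IDX : S_IDX := by
  intro K _ _ θ h
  classical
  let ω := RingOfIntegers.basis K
  have hd : 0 < Module.finrank ℚ K := Module.finrank_pos
  choose f hf1 hf2 using fun j => expand θ h ((ω j : 𝓞 K) : K)
  choose b g hb hg1 hg2 using fun j => clear (f j)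
  let i : ℕ := ∏ j, (b j).natAbs
  have hi : 1 ≤ i := Nat.one_le_iff_ne_zero.mpr
    (Finset.prod_ne_zero_iff.mpr fun j _ => Int.natAbs_ne_zero.mpr (hb j))
  have hdiv : ∀ j, ∃ m : ℤ, (i : ℤ) = m * b j := by
    intro j
    have h1 : (b j).natAbs ∣ i := Finset.dvd_prod_of_mem (fun j => (b j).natAbs) (Finset.mem_univ j)
    have h2 : b j ∣ (i : ℤ) := Int.natAbs_dvd_natAbs.mp (by simpa using h1)
    obtain ⟨m, hm⟩ := h2
    exact ⟨m, by rw [hm]; ring⟩
  choose m hm using hdiv
  have hω : ∀ j, (i : 𝓞 K) * ω j = (m j : 𝓞 K) * aeval θ (g j) := by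
    intro j
    apply RingOfIntegers.coe_injective
    have h3 := hf2 j
    have h4 : ((aeval θ (g j) : 𝓞 K) : K) = (b j : K) * aeval (θ : K) (f j) := by
      have h5 : ((aeval θ (g j) : 𝓞 K) : K) = aeval (θ : K) (g j) := by
        have := Polynomial.aeval_algebraMap_apply K θ (g j)
        exact this.symm
      have h6 : aeval (θ : K) (g j) = aeval (θ : K) ((g j).map (Int.castRingHom ℚ)) := by
        have h7 : (Int.castRingHom ℚ) = algebraMap ℤ ℚ := rfl
        rw [h7, aeval_map_algebraMap]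
      rw [h5, h6, hg2]
      simp
    have h8 : ((i : 𝓞 K) : K) = (m j : K) * (b j : K) := by
      have : ((i : ℤ) : K) = ((m j * b j : ℤ) : K) := by rw [hm j]
      push_cast at this ⊢
      exact this
    have h9 : algebraMap (𝓞 K) K (aeval θ (g j)) = (b j : K) * algebraMap (𝓞 K) K (ω j) := by
      exact h4.trans (by rw [← h3])
    have h10 : algebraMap (𝓞 K) K (i : 𝓞 K) = (m j : K) * (b j : K) := h8
    rw [map_mul, map_mul, h9, h10]
    simp only [map_intCast]
    ring
  refine ⟨i, hi, fun α => ?_⟩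
  refine ⟨∑ j, C (ω.repr α j * m j) * g j, ?_, ?_⟩
  · refine lt_of_le_of_lt (natDegree_sum_le_of_forall_le Finset.univ _
      (n := Module.finrank ℚ K - 1) ?_) (by omega)
    intro j _
    refine (natDegree_C_mul_le _ _).trans ?_
    have h1 := hf1 j
    have h2 := hg1 j
    omega
  · conv_lhs => rw [← ω.sum_repr α, Finset.mul_sum]
    rw [map_sum]
    refine Finset.sum_congr rfl fun j _ => ?_
    rw [zsmul_eq_mul, map_mul, aeval_C]
    simp only [algebraMap_int_eq, eq_intCast, Int.cast_mul]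
    linear_combination ((ω.repr α j : ℤ) : 𝓞 K) * hω j

end Pool.Agent.W143.QD
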